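import Pool.Agent.H.MP_222440_ag.Defs
import Pool.Agent.H.MP_411355_ag.A

set_option autoImplicit false
open MvPolynomial Finsupp Pool.Agent.H.MP_411355_ag

namespace Pool.Agent.H.MP_222440_ag

theorem chev {K B : Type} [Field K] [Algebra ℂ K] [CommRing B] [Algebra ℂ B] (φ : B →ₐ[ℂ] K) (φ0 : B →ₐ[ℂ] ℂ)
    (h : ∀ b, φ b = 0 → φ0 b = 0) : ∃ V : Subalgebra ℂ K, (∀ x, x ∈ V ∨ x⁻¹ ∈ V) ∧ ∃ χ : V →ₐ[ℂ] ℂ,
      ∀ b, ∃ hb : φ b ∈ V, χ ⟨φ b, hb⟩ = φ0 b := by
  obtain ⟨G, h1, h2⟩ := zorn_le_nonempty₀ {G : Subalgebra ℂ (K × ℂ) | ∀ c, (0, c) ∈ G → c = 0} (fun c h1 h2 y hy => by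
    haveI : Nonempty c := ⟨⟨y, hy⟩⟩
    refine ⟨⨆ G : c, G, fun a ha => ?_, fun z hz => le_iSup (fun G : c => G.1) ⟨z, hz⟩⟩
    rw [← SetLike.mem_coe, Subalgebra.coe_iSup_of_directed h2.directedOn.directed_val] at ha
    obtain ⟨G, hG⟩ := Set.mem_iUnion.mp ha
    exact h1 G.2 a hG) (φ.prod φ0).range (by
      rintro c ⟨b, hb⟩
      exact (congrArg Prod.snd hb).symm.trans (h b (congrArg Prod.fst hb)))
  let π := (AlgHom.fst ℂ K ℂ).comp G.val
  have hπ : Function.Injective π := (injective_iff_map_eq_zero _).mpr fun ⟨⟨a, c⟩, hc⟩ e => by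
    obtain rfl : a = 0 := e
    obtain rfl := h2.1 c hc
    rfl
  let χ : π.range →ₐ[ℂ] ℂ := ((AlgHom.snd ℂ K ℂ).comp G.val).comp (AlgEquiv.ofInjective π hπ).symm.toAlgHom
  have hχ : ∀ g : G, χ ⟨π g, g, rfl⟩ = g.1.2 := fun g =>
    congrArg (fun g : G => g.1.2) ((AlgEquiv.ofInjective π hπ).symm_apply_apply g)
  refine ⟨π.range, ?_, χ, fun b => ⟨⟨⟨_, h1 ⟨b, rfl⟩⟩, rfl⟩, hχ ⟨_, h1 ⟨b, rfl⟩⟩⟩⟩
  obtain ⟨V, h3, h4⟩ := Ideal.image_subset_nonunits_valuationSubring (A := π.range.toSubring) (RingHom.ker χ)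
    (RingHom.ker_ne_top _)
  suffices ∀ v ∈ V, v ∈ π.range from fun x => (V.mem_or_inv_mem x).imp (this _) (this _)
  intro v hv
  letI : Algebra ℂ V := ((algebraMap ℂ K).codRestrict V.toSubring fun c => h3 (π.range.algebraMap_mem c)).toAlgebra
  haveI : IsScalarTower ℂ V K := .of_algebraMap_eq fun _ => rfl
  let ρ := IsScalarTower.toAlgHom ℂ V (IsLocalRing.ResidueField V)
  let E := Algebra.adjoin ℂ {ρ ⟨v, hv⟩}
  obtain ⟨m, hm⟩ := Ideal.exists_maximal E
  haveI : Algebra.FiniteType ℂ E := Algebra.FiniteType.adjoin_of_finite (Set.finite_singleton _)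
  letI := Ideal.Quotient.field m
  haveI : Module.Finite ℂ (E ⧸ m) := finite_of_finite_type_of_isJacobsonRing _ _
  let θ : E →ₐ[ℂ] ℂ := (IsAlgClosed.lift (R := ℂ) (S := E ⧸ m) (M := ℂ)).comp (Ideal.Quotient.mkₐ ℂ m)
  let G' := (((IsScalarTower.toAlgHom ℂ V K).comp (E.comap ρ).val).prod
    (θ.comp ((ρ.comp (E.comap ρ).val).codRestrict E fun x => x.2))).range
  have h5 : G ≤ G' := fun g hg => by
    have h6 : ρ ⟨g.1, h3 ⟨⟨g, hg⟩, rfl⟩⟩ = algebraMap ℂ _ g.2 := by
      rw [← ρ.commutes, ← sub_eq_zero, ← map_sub]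
      refine (IsLocalRing.residue_eq_zero_iff _).mpr (ValuationSubring.coe_mem_nonunits_iff.mp
        (h4 ⟨⟨π ⟨g, hg⟩, _, rfl⟩ - algebraMap ℂ π.range g.2, ?_, rfl⟩))
      rw [SetLike.mem_coe, RingHom.mem_ker, map_sub, hχ, χ.commutes]
      exact sub_self _
    refine ⟨⟨⟨g.1, h3 ⟨⟨g, hg⟩, rfl⟩⟩, by rw [Subalgebra.mem_comap, h6]; exact E.algebraMap_mem _⟩, Prod.ext rfl ?_⟩
    exact (congrArg θ (Subtype.ext h6)).trans (θ.commutes g.2)
  have h6 : G' ≤ G := h2.2 (by
    rintro c ⟨x, hx⟩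
    obtain rfl : x = 0 := Subtype.ext (Subtype.ext (congrArg Prod.fst hx))
    exact (congrArg Prod.snd (hx.symm.trans (map_zero _)))) h5
  exact ⟨⟨_, h6 ⟨⟨⟨v, hv⟩, Algebra.subset_adjoin rfl⟩, rfl⟩⟩, rfl⟩

theorem baire {τ ι : Type} [Countable τ] [Countable ι] (g : ι → MvPolynomial τ ℂ) (h : ∀ i, g i ≠ 0) :
    ∃ p : τ → ℂ, ∀ i, eval p (g i) ≠ 0 := by
  obtain ⟨p, hp⟩ := (dense_iInter_of_isOpen (f := fun i => {p : τ → ℂ | eval p (g i) ≠ 0})
    (fun i => isOpen_ne_fun (g i).continuous_eval continuous_const) fun i => dense_iff_inter_open.mpr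
      fun U hU ⟨x, hx⟩ => by
      classical
      obtain ⟨I, u, h1, h2⟩ := isOpen_pi_iff.mp hU x hx
      by_contra h3
      refine h i (funext_set (fun j => if j ∈ I then u j else Set.univ) (fun j => ?_) fun y hy => ?_)
      · split_ifs with e
        · exact infinite_of_mem_nhds _ ((h1 j e).1.mem_nhds (h1 j e).2)
        · exact Set.infinite_univ
      · by_contra h4
        exact h3 ⟨y, h2 fun j e => by simpa [show j ∈ I from e] using hy j trivial, h4⟩).nonempty
  exact ⟨p, Set.mem_iInter.mp hp⟩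

variable {σ A : Type} [AddCommGroup A] {w : σ → A}

theorem mem_Van {T : Type} [CommRing T] {L ι : Type} [CommRing L] [Algebra T L] {P : ι → σ → L}
    {f : MvPolynomial σ T} : f ∈ Van w T P ↔ ∀ D i, aeval (P i) (weightedHomogeneousComponent w D f) = 0 := by
  classical
  refine ⟨fun h D i => ?_, fun h => ?_⟩
  · letI := weightedGradedAlgebra T w
    have := weightedHomogeneousComponent_mem_of_mem T w (Ideal.homogeneous_span _ _ fun x hx => hx.1) h D
    exact (Ideal.span_le (I := RingHom.ker (aeval (P i))).mpr fun x hx => hx.2 i) this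
  · rw [← sum_weightedHomogeneousComponent w f]
    exact finsum_induction (· ∈ Van w T P) (zero_mem _) (fun _ _ => add_mem) fun D =>
      Ideal.subset_span ⟨⟨D, weightedHomogeneousComponent_mem w f D⟩, h D⟩

theorem rk (hf : ∀ D, {d : σ →₀ ℕ | weight w d = D}.Finite) (T : Type) [CommRing T] [Nontrivial T] (D : A) :
    Module.Finite T (weightedHomogeneousSubmodule T w D) ∧
      Module.finrank T (weightedHomogeneousSubmodule T w D) = Nat.card {d : σ →₀ ℕ | weight w d = D} := by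
  rw [weightedHomogeneousSubmodule_eq_finsupp_supported]
  have := (hf D).to_subtype
  exact ⟨.of_basis (basisRestrictSupport T {d : σ →₀ ℕ | weight w d = D}),
    Module.finrank_eq_nat_card_basis (basisRestrictSupport T {d : σ →₀ ℕ | weight w d = D})⟩

theorem Van_hilb (hf : ∀ D, {d : σ →₀ ℕ | weight w d = D}.Finite) (T : Type) [CommRing T] [IsDomain T] [ValuationRing T]
    {L : Type} [Field L] [Algebra T L] [IsFractionRing T L] {k : ℕ} (P : Fin k → σ → L)
    (h : ∀ D, ∃ e : Fin (hgen w k D) → σ →₀ ℕ, (∀ a, weight w (e a) = D) ∧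
      LinearIndependent L fun a i => (e a).prod fun j n => P i j ^ n) : Van w T P ∈ Hilb w (hgen w k) T := by
  classical
  refine ⟨fun f hf a => Ideal.subset_span ⟨⟨a, weightedHomogeneousComponent_mem w f a⟩, mem_Van.mp hf a⟩, fun D => ?_⟩
  let ψ : weightedHomogeneousSubmodule T w D →ₗ[T] (Fin k → L) :=
    LinearMap.pi fun i => (aeval (P i)).toLinearMap ∘ₗ Submodule.subtype _
  have hk : ((Van w T P).restrictScalars T).submoduleOf (weightedHomogeneousSubmodule T w D) = LinearMap.ker ψ := by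
    ext ⟨f, hf⟩
    refine ⟨fun h => funext fun i => ?_, fun h => Ideal.subset_span ⟨⟨D, hf⟩, congrFun h⟩⟩
    exact (Ideal.span_le (I := RingHom.ker (aeval (P i))).mpr fun x hx => hx.2 i) h
  let e : Piece w (Van w T P) D ≃ₗ[T] LinearMap.range ψ := (Submodule.quotEquivOfEq _ _ hk).trans ψ.quotKerEquivRange
  obtain ⟨_, h1⟩ := rk hf T D
  haveI : Module.Flat T (LinearMap.range ψ) := Module.Flat.flat_iff_torsion_eq_bot_of_isBezout.mpr
    (Submodule.isTorsionFree_iff_torsion_eq_bot.mp inferInstance)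
  haveI : Module.Free T (LinearMap.range ψ) := Module.free_of_flat_of_isLocalRing
  haveI := Module.Free.of_equiv e.symm
  refine ⟨inferInstance, inferInstance, fun p => ?_⟩
  rw [Module.rankAtStalk_eq_finrank_of_free, Pi.natCast_apply, Nat.cast_id, e.finrank_eq]
  refine le_antisymm (le_min ?_ ?_) ?_
  · have := ((LinearIndependent.iff_fractionRing T L).mp ((Module.finBasis T (LinearMap.range ψ)).linearIndependent.map'
      (Submodule.subtype _) (Submodule.ker_subtype _))).fintype_card_le_finrank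
    simpa using this
  · rw [(rk hf ℂ D).2, ← h1]
    exact ψ.finrank_range_le
  · obtain ⟨e, h2, h3⟩ := h D
    have := LinearIndependent.fintype_card_le_finrank (LinearIndependent.of_comp (v := fun a =>
      ψ.rangeRestrict ⟨_, isWeightedHomogeneous_monomial w (e a) (1 : T) (h2 a)⟩) (Submodule.subtype _) (by
        refine Eq.mp (congrArg (fun v => LinearIndependent T v) (funext fun a => funext fun i => ?_))
          ((LinearIndependent.iff_fractionRing T L).mpr h3)
        change _ = aeval (P i) (monomial (e a) (1 : T))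
        rw [aeval_monomial, map_one, one_mul]))
    simpa using this

theorem delta (hf : ∀ D, {d : σ →₀ ℕ | weight w d = D}.Finite) (k : ℕ) (D : A) : ∃ Δ : MvPolynomial (ℕ × σ) ℂ, Δ ≠ 0 ∧
    ∀ (L : Type) [Field L] [Algebra ℂ L] (P : ℕ × σ → L), aeval P Δ ≠ 0 → ∃ e : Fin (hgen w k D) → σ →₀ ℕ,
      (∀ a, weight w (e a) = D) ∧ LinearIndependent L fun a (i : Fin k) => (e a).prod fun j n => P (i, j) ^ n := by
  classical
  have := (hf D).fintype
  obtain ⟨e⟩ : Nonempty (Fin (hgen w k D) ↪ {d : σ →₀ ℕ | weight w d = D}) := Function.Embedding.nonempty_of_card_le (by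
    rw [Fintype.card_fin, ← Nat.card_eq_fintype_card, ← (rk hf ℂ D).2]; exact min_le_right _ _)
  let M : Matrix (Fin (hgen w k D)) (Fin (hgen w k D)) (MvPolynomial (ℕ × σ) ℂ) :=
    .of fun a i => monomial ((e a).1.mapDomain fun j => ((i : ℕ), j)) 1
  refine ⟨M.det, fun h => ?_, fun L _ _ P h => ⟨fun a => e a, fun a => (e a).2, ?_⟩⟩
  · have := congrArg (coeff (∑ i : Fin (hgen w k D), (e i).1.mapDomain fun j => ((i : ℕ), j))) h
    rw [Matrix.det_apply, coeff_sum, Finset.sum_eq_single 1] at this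
    · simp [M, ← monomial_sum_one] at this
    · intro π _ hπ
      simp only [M, Matrix.of_apply, ← monomial_sum_one, coeff_smul, coeff_monomial]
      rw [if_neg, smul_zero]
      refine fun h => hπ (Equiv.ext fun i => e.injective (Subtype.ext (Finsupp.ext fun j => ?_)))
      have key : ∀ g : Fin (hgen w k D) → σ →₀ ℕ, (∑ i, (g i).mapDomain fun j => ((i : ℕ), j)) (i, j) = g i j := fun g => by
        rw [Finsupp.finsetSum_apply, Finset.sum_eq_single i]
        · exact mapDomain_apply (Prod.mk_right_injective _) _ _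
        · exact fun b _ hb => mapDomain_of_notMem_range _ _ fun ⟨_, e⟩ => hb (Fin.ext (congrArg Prod.fst e))
        · simp
      exact (key _).symm.trans ((DFunLike.congr_fun h _).trans (key _))
    · simp
  · rw [AlgHom.map_det] at h
    refine .of_comp (LinearMap.funLeft L L (Fin.castLE (show hgen w k D ≤ k from min_le_left _ _))) ?_
    refine Eq.mp (congrArg (fun v => LinearIndependent L v) (funext fun a => funext fun i => ?_))
      (Matrix.linearIndependent_rows_of_det_ne_zero h)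
    simp [M, aeval_monomial, Finsupp.prod_mapDomain_index_inj (Prod.mk_right_injective _), LinearMap.funLeft]

end Pool.Agent.H.MP_222440_ag
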