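import Pool.Agent.H.MP_222440_ag.A

set_option autoImplicit false
open MvPolynomial Finsupp AlgebraicGeometry CategoryTheory Pool.Agent.H.MP_411355_ag

namespace Pool.Agent.H.MP_222440_ag

variable {σ A : Type} [AddCommGroup A] {w : σ → A}

section sch
variable {h : A → ℕ} (X : HilbScheme w h)

/-- Morphisms over the base. -/
abbrev Ov (T : Type) [CommRing T] [Algebra ℂ T] (f : Spec (.of T) ⟶ X.H) : Prop :=
  f ≫ X.s = Spec.map (CommRingCat.ofHom (algebraMap ℂ T))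

theorem chart (y : X.H) (W : X.H.Opens) (hy : y ∈ W) :
    ∃ (B : CommRingCat.{0}) (_ : Algebra ℂ B) (f : Spec (.of B) ⟶ X.H), Algebra.FiniteType ℂ B ∧ IsOpenImmersion f ∧
      y ∈ Set.range f ∧ Set.range f ⊆ W ∧ Ov X B f := by
  obtain ⟨B, f, h1, h2, h3⟩ := Scheme.exists_affine_mem_range_and_range_subset hy
  obtain ⟨ψ, hψ⟩ := Spec.map_surjective (f ≫ X.s)
  refine ⟨B, ψ.hom.toAlgebra, f, ?_, h1, h2, h3, hψ.symm⟩
  haveI := X.ft
  have : LocallyOfFiniteType (Spec.map ψ) := hψ ▸ inferInstance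
  exact (HasRingHomProperty.Spec_iff (P := @LocallyOfFiniteType)).mp this

variable {X}

theorem Ov.map {B T : Type} [CommRing B] [Algebra ℂ B] [CommRing T] [Algebra ℂ T] {f : Spec (.of B) ⟶ X.H}
    (hf : Ov X B f) (φ : B →ₐ[ℂ] T) : Ov X T (Spec.map (CommRingCat.ofHom φ.toRingHom) ≫ f) := by
  rw [Ov, Category.assoc, hf]
  exact (Spec.map_comp _ _).symm.trans (congrArg (fun g => Spec.map (CommRingCat.ofHom g)) φ.comp_algebraMap)

theorem Ov.lift {B L : Type} [CommRing B] [Algebra ℂ B] [Field L] [Algebra ℂ L] {f : Spec (.of B) ⟶ X.H}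
    [IsOpenImmersion f] (hf : Ov X B f) {x : Spec (.of L) ⟶ X.H} (hx : Ov X L x) {a} (ha : x a ∈ Set.range f) :
    ∃ φ : B →ₐ[ℂ] L, Spec.map (CommRingCat.ofHom φ.toRingHom) ≫ f = x := by
  obtain ⟨ψ, h7⟩ := Spec.map_surjective (IsOpenImmersion.lift f x (by
    rintro _ ⟨b, rfl⟩; rwa [Subsingleton.elim b a]))
  have h8 : Spec.map ψ ≫ f = x := h7 ▸ IsOpenImmersion.lift_fac _ _ _
  refine ⟨⟨ψ.hom, fun a => ?_⟩, h8⟩
  have : Spec.map ψ ≫ f ≫ X.s = _ := (Category.assoc _ _ _).symm.trans (h8 ▸ hx)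
  rw [hf, ← Spec.map_comp, Spec.map_inj] at this
  exact congrArg (fun g => g.hom a) this

theorem comp_map {B T T' : Type} [CommRing B] [Algebra ℂ B] [CommRing T] [Algebra ℂ T] [CommRing T'] [Algebra ℂ T']
    (f : Spec (.of B) ⟶ X.H) (φ : B →ₐ[ℂ] T) (ψ : T →ₐ[ℂ] T') :
    Spec.map (CommRingCat.ofHom ψ.toRingHom) ≫ Spec.map (CommRingCat.ofHom φ.toRingHom) ≫ f =
      Spec.map (CommRingCat.ofHom (ψ.comp φ).toRingHom) ≫ f := by
  rw [← Category.assoc, ← Spec.map_comp]; rfl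

theorem pt_eq {I : Ideal (MvPolynomial σ ℂ)} {x y : X.H} (hx : X.Pt I x) (hy : X.Pt I y) : x = y := by
  obtain ⟨f, h1, h2, a, rfl⟩ := hx
  obtain ⟨g, h3, h4, b, rfl⟩ := hy
  rw [(X.bij ℂ).injOn h1 h3 (h2.trans h4.symm), Subsingleton.elim a b]
end sch

theorem Van_ev {T : Type} [CommRing T] {L ι : Type} [CommRing L] [Algebra T L] {P : ι → σ → L}
    {f : MvPolynomial σ T} (h : f ∈ Van w T P) (i : ι) : aeval (P i) f = 0 :=
  (Ideal.span_le (I := RingHom.ker (aeval (P i))).mpr fun _ hx => hx.2 i) h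

theorem hom_map {T T' : Type} [CommRing T] [CommRing T'] (φ : T →+* T') {f : MvPolynomial σ T}
    (h : ∃ D, IsWeightedHomogeneous w f D) : ∃ D, IsWeightedHomogeneous w (MvPolynomial.map φ f) D :=
  h.imp fun _ h _ hd => h fun e => hd (by rw [coeff_map, e, map_zero])

variable (σ) in
/-- The function field. -/
abbrev KK : Type := FractionRing (MvPolynomial (ℕ × σ) ℂ)

/-- The generic points. -/
noncomputable def PP (k : ℕ) (i : Fin k) (j : σ) : KK σ := algebraMap (MvPolynomial (ℕ × σ) ℂ) _ (X (i, j))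

variable (hf : ∀ D, {d : σ →₀ ℕ | weight w d = D}.Finite) {k : ℕ} {X : HilbScheme w (hgen w k)}
  {V : Subalgebra ℂ (KK σ)} (hV : ∀ x, x ∈ V ∨ x⁻¹ ∈ V) (χ : V →ₐ[ℂ] ℂ)

include hf in
theorem gen_hilb (T : Type) [CommRing T] [IsDomain T] [ValuationRing T] [Algebra T (KK σ)] [IsFractionRing T (KK σ)] :
    Van w T (PP k) ∈ Hilb w (hgen w k) T := Van_hilb hf T _ fun D => by
  obtain ⟨Δ, h1, h2⟩ := delta hf k D
  refine h2 _ (fun x => algebraMap (MvPolynomial (ℕ × σ) ℂ) _ (MvPolynomial.X x)) ?_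
  refine (aeval_algebraMap_apply (KK σ) MvPolynomial.X Δ).trans_ne ?_
  simpa using h1

include hf hV in
theorem V_hilb : Van w V (PP k) ∈ Hilb w (hgen w k) V :=
  haveI : ValuationRing V := inferInstanceAs (ValuationRing (⟨V.toSubring, hV⟩ : ValuationSubring (KK σ)))
  haveI : IsFractionRing V (KK σ) := inferInstanceAs (IsFractionRing (⟨V.toSubring, hV⟩ : ValuationSubring (KK σ)) _)
  gen_hilb hf V

variable {g : Spec (.of (KK σ)) ⟶ X.H} (g1 : Ov X _ g) (g2 : X.U _ g = Van w (KK σ) (PP k))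

include hf hV g2 in
theorem ext {f : Spec (.of V) ⟶ X.H} (h1 : Ov X V f) (h2 : Spec.map (CommRingCat.ofHom V.val.toRingHom) ≫ f = g) :
    X.U V f = Van w V (PP k) := by
  have h3 := (X.bij V).mapsTo h1
  refine Hilb.eq h3 (V_hilb hf hV) fun p hp => mem_Van.mpr fun D i => ?_
  have := Ideal.mem_map_of_mem (MvPolynomial.map V.val.toRingHom) (h3.1 p hp D)
  rw [← X.nat _ _ V.val f h1, h2, g2] at this
  exact (aeval_map_algebraMap (KK σ) _ _).symm.trans (Van_ev this i)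

include hf hV g1 g2 in
theorem spec (a) : ∃ y, X.Pt ((Van w V (PP k)).map (MvPolynomial.map χ.toRingHom)) y ∧ g a ⤳ y := by
  obtain ⟨f, h1, h2⟩ := (X.bij V).surjOn (V_hilb hf hV)
  have h3 : Spec.map (CommRingCat.ofHom V.val.toRingHom) ≫ f = g := by
    refine (X.bij _).injOn (Ov.map h1 V.val) g1 (Hilb.eq ((X.bij _).mapsTo (Ov.map h1 V.val)) ((X.bij _).mapsTo g1) ?_)
    rw [X.nat _ _ V.val f h1, h2, g2, Van, Ideal.map_span]
    refine Ideal.span_mono ?_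
    rintro _ ⟨p, hp, rfl⟩
    exact ⟨hom_map _ hp.1, fun i => (aeval_map_algebraMap (KK σ) _ _).trans (hp.2 i)⟩
  refine ⟨_, ⟨_, Ov.map h1 χ, h2 ▸ X.nat _ _ χ f h1, IsLocalRing.closedPoint ℂ, rfl⟩, ?_⟩
  rw [← h3]
  refine Specializes.map ((PrimeSpectrum.le_iff_specializes _ _).mp fun x hx => ?_) f.continuous
  obtain rfl : x = 0 := Subtype.ext (Ideal.mem_bot.mp ((Ideal.eq_bot_of_prime a.asIdeal).le hx))
  exact zero_mem _

theorem atp (p : ℕ × σ → ℂ) : ∃ V : Subalgebra ℂ (KK σ), (∀ x, x ∈ V ∨ x⁻¹ ∈ V) ∧ ∃ χ : V →ₐ[ℂ] ℂ,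
    (∀ b, eval p b ≠ 0 → ∀ a : MvPolynomial (ℕ × σ) ℂ, algebraMap _ (KK σ) a / algebraMap _ (KK σ) b ∈ V) ∧
    (Van w V (PP k)).map (MvPolynomial.map χ.toRingHom) ≤ Van w ℂ fun (i : Fin k) j => p (i, j) := by
  obtain ⟨V, h1, χ, h2⟩ := chev (IsScalarTower.toAlgHom ℂ (MvPolynomial (ℕ × σ) ℂ) (KK σ)) (aeval p) fun b hb => by
    rw [(map_eq_zero_iff _ (IsFractionRing.injective _ (KK σ))).mp hb, map_zero]
  choose h2 h3 using h2
  refine ⟨V, h1, χ, fun b hb a => ?_, ?_⟩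
  · haveI : ValuationRing V := inferInstanceAs (ValuationRing (⟨V.toSubring, h1⟩ : ValuationSubring (KK σ)))
    obtain ⟨c, hc⟩ : IsUnit (⟨_, h2 b⟩ : V) := by
      by_contra h4
      rw [← mem_nonunits_iff, ← IsLocalRing.mem_maximalIdeal, ← IsLocalRing.eq_maximalIdeal
        (RingHom.ker_isMaximal_of_surjective χ fun a => ⟨_, χ.commutes a⟩), RingHom.mem_ker, h3] at h4
      exact hb h4
    have h5 : algebraMap _ (KK σ) b * (c⁻¹ : Vˣ).1.1 = 1 := congrArg Subtype.val (hc ▸ c.mul_inv)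
    rw [div_eq_mul_inv, ← eq_inv_of_mul_eq_one_right h5]
    exact mul_mem (h2 a) (Subtype.prop _)
  · rw [Van, Ideal.map_span]
    refine Ideal.span_mono ?_
    rintro _ ⟨q, hq, rfl⟩
    refine ⟨hom_map _ hq.1, fun i => ?_⟩
    have h4 : aeval (fun j => (⟨_, h2 (MvPolynomial.X (i, j))⟩ : V)) q = 0 :=
      Subtype.ext ((aeval_algebraMap_apply (A := V) (KK σ) _ q).symm.trans (hq.2 i))
    have h5 := congrArg χ.toRingHom h4
    rw [map_zero, map_aeval] at h5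
    rw [aeval_def, eval₂_map, ← h5]
    exact congrArg (fun P => eval₂Hom _ P q) (funext fun j => ((h3 _).trans (aeval_X _ _)).symm)

include hf g1 g2 in
theorem b1 (B : Ideal (MvPolynomial σ ℂ)) (a) : closure {y | ∃ J ∈ Sip w B k, X.Pt J y} ⊆ closure {g a} := by
  refine closure_minimal ?_ isClosed_closure
  rintro y ⟨_, ⟨h1, p, -, -, rfl⟩, h2⟩
  obtain ⟨V, hV, χ, -, h3⟩ := atp (w := w) (k := k) fun x => if h : x.1 < k then p ⟨x.1, h⟩ x.2 else 0
  simp only [Fin.is_lt, dif_pos] at h3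
  obtain ⟨z, h4, h5⟩ := spec hf hV χ g1 g2 a
  obtain ⟨f, h6, h7, -⟩ := id h4
  rw [Hilb.eq (h7 ▸ (X.bij ℂ).mapsTo h6) h1 h3] at h4
  exact pt_eq h4 h2 ▸ h5.mem_closure

theorem orb {p q : σ → ℂ} (h : SameOrbit w p q) {m m' : σ →₀ ℕ} (e : weight w m = weight w m') :
    eval p (monomial m 1) * eval q (monomial m' 1) = eval p (monomial m' 1) * eval q (monomial m 1) := by
  obtain ⟨χ, h⟩ := h
  have : ∀ m, eval q (monomial m 1) = χ (.ofAdd (weight w m)) * eval p (monomial m 1) := fun m => by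
    induction m using Finsupp.induction_linear with
    | zero => simp
    | add a b ha hb =>
      rw [← one_mul (1 : ℂ), ← monomial_mul, map_mul, ha, hb, map_add, ofAdd_add, map_mul, map_mul, Units.val_mul]
      ring
    | single j n => simp [← X_pow_eq_monomial, h, weight_single, mul_pow, ofAdd_nsmul]
  rw [this, this, e]; ring

include hf g1 g2 in
theorem b2 [Finite σ] {B : Ideal (MvPolynomial σ ℂ)} (hB : B ≠ ⊥)
    (hm : 2 ≤ k → ∃ m m' : σ →₀ ℕ, m ≠ m' ∧ weight w m = weight w m') (a) :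
    g a ∈ closure {y | ∃ J ∈ Sip w B k, X.Pt J y} := by
  classical
  refine mem_closure_iff.mpr fun W h1 h2 => ?_
  obtain ⟨C, _, f, ⟨s, hs⟩, _, h3, h4, h5⟩ := chart X (g a) ⟨W, h1⟩ h2
  obtain ⟨φ, rfl⟩ := h5.lift g1 h3
  choose n d h6 h7 using fun c => IsFractionRing.div_surjective (MvPolynomial (ℕ × σ) ℂ) (φ c)
  choose Δ h8 h9 using delta hf k
  obtain ⟨b, h10, h11⟩ := (Submodule.ne_bot_iff _).mp hB
  have : ∀ i j : ℕ, ∃ δ : MvPolynomial (ℕ × σ) ℂ, δ ≠ 0 ∧ ∀ p : ℕ × σ → ℂ, eval p δ ≠ 0 → i < k → j < k →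
      SameOrbit w (fun t => p (i, t)) (fun t => p (j, t)) → i = j := fun i j => by
    by_cases e : i < k ∧ j < k ∧ i ≠ j
    · obtain ⟨m, m', h12, h13⟩ := hm (by omega)
      obtain ⟨t, ht⟩ := DFunLike.ne_iff.mp h12
      refine ⟨rename (Prod.mk i) (monomial m 1) * rename (Prod.mk j) (monomial m' 1) -
        rename (Prod.mk i) (monomial m' 1) * rename (Prod.mk j) (monomial m 1), fun h => ht ?_, fun p h _ _ h' => ?_⟩
      · have := congrArg (eval fun x => if x = (i, t) then (2 : ℂ) else 1) h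
        have h14 : ∀ m : σ →₀ ℕ, (m.prod fun s e => (if s = t then (2 : ℂ) else 1) ^ e) = 2 ^ m t := fun m => by
          rw [Finsupp.prod_eq_single t] <;> simp +contextual
        simp only [map_sub, map_mul, eval_rename, eval_monomial, Function.comp, Prod.mk.injEq, true_and, h14,
          e.2.2.symm, false_and, if_false, one_pow, Finsupp.prod_fun_one, one_mul, mul_one, map_zero, sub_eq_zero] at this
        exact Nat.pow_right_injective le_rfl (by exact_mod_cast this)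
      · simp only [map_sub, map_mul, eval_rename] at h
        exact (h (sub_eq_zero.mpr (orb h' h13))).elim
    · exact ⟨1, one_ne_zero, fun _ _ _ _ _ => by omega⟩
  choose δ h12 h13 using this
  obtain ⟨p, hp⟩ := baire (fun x : (σ →₀ ℕ) × ℕ × ℕ => (∏ c ∈ s, d c) * Δ (weight w x.1) * δ x.2.1 x.2.2 *
    rename (Prod.mk x.2.1) b) fun x => mul_ne_zero (mul_ne_zero (mul_ne_zero (Finset.prod_ne_zero_iff.mpr fun c _ =>
      nonZeroDivisors.ne_zero (h6 c)) (h8 _)) (h12 _ _))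
      ((map_ne_zero_iff _ (rename_injective _ (Prod.mk_right_injective _))).mpr h11)
  simp only [map_mul, mul_ne_zero_iff, map_prod, Finset.prod_ne_zero_iff] at hp
  obtain ⟨V, hV, χ, h14, h15⟩ := atp (w := w) (k := k) p
  have h16 : ∀ c, φ c ∈ V := fun c => (show ⊤ ≤ V.comap φ from hs ▸ Algebra.adjoin_le fun c hc => by
    rw [SetLike.mem_coe, Subalgebra.mem_comap, ← h7]; exact h14 _ ((hp 0).1.1.1 c hc) _) trivial
  have h17 : (Van w ℂ fun (i : Fin k) j => p (i, j)) ∈ Hilb w (hgen w k) ℂ := Van_hilb hf ℂ _ fun D => by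
    by_cases e : ∃ m : σ →₀ ℕ, weight w m = D
    · obtain ⟨m, rfl⟩ := e
      exact h9 _ ℂ p (hp (m, 0)).1.1.2
    · haveI : IsEmpty {d : σ →₀ ℕ | weight w d = D} := ⟨fun d => e ⟨d.1, d.2⟩⟩
      haveI : IsEmpty (Fin (hgen w k D)) := by
        rw [hgen, (rk hf ℂ D).2, Nat.card_of_isEmpty, Nat.min_zero]
        infer_instance
      exact ⟨isEmptyElim, isEmptyElim, linearIndependent_empty_type⟩
  have h18 := h5.map (φ.codRestrict V h16)
  have h19 := X.nat _ _ χ _ h18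
  rw [ext hf hV g2 h18 (comp_map _ _ _)] at h19
  refine ⟨_, h4 ⟨_, rfl⟩, _, ⟨h17, fun (i : Fin k) j => p (i, j), fun i => ⟨b, h10, ?_⟩,
    fun i j e => Fin.ext (h13 _ _ p (hp (0, i, j)).1.2 i.2 j.2 e), rfl⟩, _, h18.map χ,
    Hilb.eq ((X.bij ℂ).mapsTo (h18.map χ)) h17 (h19 ▸ h15), IsLocalRing.closedPoint ℂ, rfl⟩
  simpa [eval_rename, Function.comp_def] using (hp (0, i, 0)).2

include hf in
theorem main [Finite σ] {B : Ideal (MvPolynomial σ ℂ)} (hB : B ≠ ⊥) {r : ℕ}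
    (hm : 2 ≤ r → ∃ m m' : σ →₀ ℕ, m ≠ m' ∧ weight w m = weight w m') (X : ∀ k, HilbScheme w (hgen w k))
    {I : Ideal (MvPolynomial σ ℂ)} (hI : I ∈ Slip B (X r)) : ∃ J : ℕ → Ideal (MvPolynomial σ ℂ),
      J r = I ∧ J 0 = ⊤ ∧ (∀ k < r, J (k + 1) ≤ J k) ∧ ∀ k ≤ r, J k ∈ Slip B (X k) := by
  choose g g1 g2 using fun k => ((X k).bij _).surjOn (gen_hilb (k := k) hf (KK σ))
  obtain ⟨_, ⟨x, h1, rfl, a, rfl⟩, h2⟩ := hI
  let η := IsLocalRing.closedPoint (KK σ)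
  have h3 := specializes_iff_mem_closure.mpr (b1 hf (g1 r) (g2 r) B η h2)
  obtain ⟨C, _, f, -, _, h4, -, h5⟩ := chart (X r) (x a) ⊤ trivial
  obtain ⟨φ0, rfl⟩ := h5.lift h1 h4
  obtain ⟨φ, h6⟩ := h5.lift (g1 r) (h3.mem_open f.isOpenEmbedding.isOpen_range h4)
  obtain ⟨V, hV, χ, h7⟩ := chev φ φ0 fun b hb => by
    rw [← h6] at h3
    have := (PrimeSpectrum.le_iff_specializes _ _).mpr (f.isOpenEmbedding.isInducing.specializes_iff.mp h3)
    exact Ideal.mem_bot.mp ((Ideal.eq_bot_of_prime a.asIdeal).le (this (show φ b ∈ η.asIdeal from hb ▸ zero_mem _)))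
  choose h7 h8 using h7
  refine ⟨fun k => (Van w V (PP k)).map (MvPolynomial.map χ.toRingHom), ?_, ?_, fun k _ => Ideal.map_mono
    (Ideal.span_mono fun p hp => ⟨hp.1, fun i => hp.2 i.castSucc⟩), fun k hk => ?_⟩
  · have h9 := h5.map (φ.codRestrict V h7)
    beta_reduce
    rw [← ext hf hV (g2 r) h9 ((comp_map _ _ _).trans h6), ← (X r).nat _ _ χ _ h9, comp_map,
      show χ.comp (φ.codRestrict V h7) = φ0 from AlgHom.ext h8]
  · beta_reduce
    rw [(Ideal.eq_top_iff_one (Van w V (PP 0))).mpr (mem_Van.mpr fun _ i => i.elim0), Ideal.map_top]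
  · obtain ⟨y, h9, h10⟩ := spec hf hV χ (g1 k) (g2 k) η
    exact ⟨y, h9, h10.mem_closed isClosed_closure (b2 hf (g1 k) (g2 k) hB (fun e => hm (e.trans hk)) η)⟩

end Pool.Agent.H.MP_222440_ag
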