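import Pool.Agent.H.MP_411355_ag.Defs

set_option autoImplicit false
open MvPolynomial AlgebraicGeometry CategoryTheory Pool.Agent.H.MP_411355_ag

namespace Pool.Agent.H.MP_222440_ag

section fan
variable {N n : ℕ} (u : Fin N → Fin n → ℤ)

/-- The real cone spanned by the rays with index in `τ`. -/
def cone (τ : Finset (Fin N)) : Set (Fin n → ℝ) :=
  {v | ∃ c : Fin N → ℝ, (∀ ρ, 0 ≤ c ρ) ∧ (∀ ρ ∉ τ, c ρ = 0) ∧ ∀ i, v i = ∑ ρ, c ρ * u ρ i}

/-- The rays `u` and the maximal cones `F` form the fan of a smooth projective toric variety. -/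
structure IsFan (F : Set (Finset (Fin N))) : Prop where
  ray : ∀ ρ, ∃ τ ∈ F, ρ ∈ τ
  indep : ∀ τ ∈ F, LinearIndependent ℤ fun ρ : τ => u ρ
  span : ∀ τ ∈ F, Submodule.span ℤ (u '' τ) = ⊤
  face : ∀ τ ∈ F, ∀ τ' ∈ F, cone u τ ∩ cone u τ' = cone u (τ ∩ τ')
  complete : ∀ v : Fin n → ℝ, ∃ τ ∈ F, v ∈ cone u τ
  proj : ∃ a : Fin N → ℤ, ∀ τ ∈ F, ∃ m : Fin n → ℤ, ∀ ρ, (ρ ∈ τ → u ρ ⬝ᵥ m = -a ρ) ∧ (ρ ∉ τ → -a ρ < u ρ ⬝ᵥ m)

/-- The Picard group: torus invariant divisors modulo divisors of characters. -/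
abbrev Pic : Type := (Fin N → ℤ) ⧸ LinearMap.range (Matrix.of u).mulVecLin

/-- The degrees of the variables of the Cox ring. -/
def deg (ρ : Fin N) : Pic u := Submodule.Quotient.mk (Pi.single ρ 1)

/-- The irrelevant ideal. -/
noncomputable def irr (F : Set (Finset (Fin N))) : Ideal (MvPolynomial (Fin N) ℂ) :=
  Ideal.span ((fun τ => ∏ ρ ∈ τᶜ, X ρ) '' F)

end fan

variable {σ A : Type} [AddCommGroup A] (w : σ → A)

/-- The generic Hilbert function of `k` points. -/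
noncomputable def hgen (k : ℕ) (D : A) : ℕ := min k (Module.finrank ℂ (weightedHomogeneousSubmodule ℂ w D))

/-- The ideal generated by the homogeneous polynomials vanishing at the points `P i`. -/
noncomputable def Van (T : Type) [CommRing T] {L ι : Type} [CommRing L] [Algebra T L] (P : ι → σ → L) :
    Ideal (MvPolynomial σ T) :=
  Ideal.span {f | (∃ D, IsWeightedHomogeneous w f D) ∧ ∀ i, aeval (P i) f = 0}

/-- Two vectors of homogeneous coordinates lie in one orbit of the group `Hom(A, ℂˣ)`. -/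
def SameOrbit (p q : σ → ℂ) : Prop := ∃ χ : Multiplicative A →* ℂˣ, ∀ j, q j = χ (.ofAdd (w j)) * p j

/-- Ideals of `k` distinct points with the generic Hilbert function. -/
def Sip (B : Ideal (MvPolynomial σ ℂ)) (k : ℕ) : Set (Ideal (MvPolynomial σ ℂ)) :=
  {I | I ∈ Hilb w (hgen w k) ℂ ∧ ∃ p : Fin k → σ → ℂ, (∀ i, ∃ b ∈ B, eval (p i) b ≠ 0) ∧
    (∀ i j, SameOrbit w (p i) (p j) → i = j) ∧ I = Van w ℂ p}

/-- A scheme locally of finite type over `ℂ` that represents the multigraded Hilbert functor. -/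
structure HilbScheme (h : A → ℕ) where
  H : Scheme.{0}
  s : H ⟶ Spec (.of ℂ)
  ft : LocallyOfFiniteType s
  U : ∀ (T : Type) [CommRing T] [Algebra ℂ T], (Spec (.of T) ⟶ H) → Ideal (MvPolynomial σ T)
  bij : ∀ (T : Type) [CommRing T] [Algebra ℂ T],
    Set.BijOn (U T) {f | f ≫ s = Spec.map (CommRingCat.ofHom (algebraMap ℂ T))} (Hilb w h T)
  nat : ∀ (T T' : Type) [CommRing T] [Algebra ℂ T] [CommRing T'] [Algebra ℂ T'] (φ : T →ₐ[ℂ] T')
    (f : Spec (.of T) ⟶ H), f ≫ s = Spec.map (CommRingCat.ofHom (algebraMap ℂ T)) →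
    U T' (Spec.map (CommRingCat.ofHom φ.toRingHom) ≫ f) = (U T f).map (MvPolynomial.map φ.toRingHom)

variable {w}

/-- The point `x` of the Hilbert scheme is the point of the ideal `I`. -/
def HilbScheme.Pt {h : A → ℕ} (X : HilbScheme w h) (I : Ideal (MvPolynomial σ ℂ)) (x : X.H) : Prop :=
  ∃ f : Spec (.of ℂ) ⟶ X.H, f ≫ X.s = Spec.map (CommRingCat.ofHom (algebraMap ℂ ℂ)) ∧ X.U ℂ f = I ∧ x ∈ Set.range f

/-- Ideals whose point lies in the Zariski closure of the points of the ideals in `Sip`. -/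
def Slip (B : Ideal (MvPolynomial σ ℂ)) {k : ℕ} (X : HilbScheme w (hgen w k)) : Set (Ideal (MvPolynomial σ ℂ)) :=
  {I | ∃ x, X.Pt I x ∧ x ∈ closure {y | ∃ J ∈ Sip w B k, X.Pt J y}}

end Pool.Agent.H.MP_222440_ag
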